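import Pool.Agent.Lib.MP_732f67_ag.G.Last
import Pool.Agent.Lib.MP_732f67_ag.S.A
import Pool.Agent.Lib.MP_732f67_ag.G.Stm2

/-!
Let `X` be a klt Fano variety of dimension `n` over `ℂ` which has a log resolution. For every
decomposition `- K_X ~ ∑ a i * M i` (up to `ℝ`-linear equivalence) into semiample, non-torsion Cartier
divisors `M i` with positive real coefficients the total weight `∑ a i` is at most `2 n`, and the
value `2 n` is attained by some decomposition if and only if `X` is `(ℙ^1)^n`.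

All the definitions (projective varieties as sets of local rings, Cartier divisors, the canonical
divisor, klt singularities, ample and semiample divisors, log resolutions) are in
`Pool/Agent/Lib/MP_732f67_ag/G/Stmt.lean` and `Stm2.lean`. That `(ℙ^1)^n` satisfies the hypotheses for every `n` is
proved in `Pool/Agent/Lib/MP_732f67_ag/S/B.lean` (`exists_P1`).
-/

namespace Pool.Agent.Results.MP_732f67_ag.SemiampleDec

open Pool.Agent.KM

theorem result (L : Type) [Field L] [Algebra ℂ L] (n : ℕ) (X : Set (Subalgebra ℂ L))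
    (D : Fin n → Derivation ℂ L L) (m : ℕ) (κ : Subalgebra ℂ L → Lˣ) (hX : KltFano X D m κ)
    (hW : ∃ (W : Set (Subalgebra ℂ L)) (s : ℕ) (P : Fin s → Subalgebra ℂ L)
      (E : Fin s → Subalgebra ℂ L → Lˣ), LogResolution n X W P E) :
    (∀ (r : ℕ) (a : Fin r → ℝ) (M : Fin r → Subalgebra ℂ L → Lˣ), Dec X m κ a M →
      ∑ i, a i ≤ 2 * n) ∧
    ((∃ (r : ℕ) (a : Fin r → ℝ) (M : Fin r → Subalgebra ℂ L → Lˣ), Dec X m κ a M ∧
      ∑ i, a i = 2 * n) ↔ IsP1n X n) := by
  obtain ⟨W, s, P, E, hW⟩ := hW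
  refine ⟨fun r a M hM => (main L n X D m κ hX W s P E hW.logRes r a M hM).1, ?_, fun h => ?_⟩
  · rintro ⟨r, a, M, hM, h⟩
    exact (main L n X D m κ hX W s P E hW.logRes r a M hM).2 h
  · obtain ⟨M, hM⟩ := exists_dec_of_P1 hX h
    refine ⟨n, fun _ => 2, M, hM, ?_⟩
    rw [Finset.sum_const, Finset.card_univ, Fintype.card_fin, nsmul_eq_mul, mul_comm]

end Pool.Agent.Results.MP_732f67_ag.SemiampleDec
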