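import Mathlib

namespace Pool.Agent.Results.MP_732f67_ag.ToricNef

open Finset

section Steinitz

variable {ι : Type*} [Fintype ι] [DecidableEq ι]

/-- the vectors `v i`, `i ∈ s`, generate the vector space as a convex cone -/
def ConeSpan {E : Type*} [AddCommGroup E] [Module ℝ E] (v : ι → E) (s : Finset ι) : Prop :=
  ∀ x : E, ∃ l : ι → ℝ, (∀ i, 0 ≤ l i) ∧ (∀ i, i ∉ s → l i = 0) ∧ x = ∑ i, l i • v i

theorem ConeSpan.pos {E : Type*} [AddCommGroup E] [Module ℝ E] {v : ι → E} {s : Finset ι}
    (h : ConeSpan v s) (f : E →ₗ[ℝ] ℝ) (hf : f ≠ 0) : ∃ i ∈ s, 0 < f (v i) := by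
  by_contra hcon
  push Not at hcon
  apply hf
  have key : ∀ x, f x ≤ 0 := by
    intro x
    obtain ⟨l, hl0, hls, rfl⟩ := h x
    rw [map_sum]
    apply Finset.sum_nonpos
    intro i _
    rw [map_smul, smul_eq_mul]
    by_cases hi : i ∈ s
    · exact mul_nonpos_of_nonneg_of_nonpos (hl0 i) (hcon i hi)
    · rw [hls i hi]; simp
  ext x
  have h1 := key x
  have h2 := key (-x)
  rw [map_neg] at h2
  simp only [LinearMap.zero_apply]
  linarith

omit [DecidableEq ι] in
/-- conic Caratheodory -/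
theorem conic_caratheodory {E : Type*} [AddCommGroup E] [Module ℝ E] (v : ι → E) (x : E)
    (l : ι → ℝ) (hl : ∀ i, 0 ≤ l i) (hx : x = ∑ i, l i • v i) :
    ∃ (C : Finset ι) (m : ι → ℝ), (∀ i ∈ C, 0 < m i) ∧ (∀ i, i ∉ C → m i = 0) ∧
      x = ∑ i, m i • v i ∧ LinearIndepOn ℝ v (C : Set ι) ∧ (∀ i ∈ C, l i ≠ 0) := by
  classical
  -- minimal support
  let S : Set ℕ := {k | ∃ (m : ι → ℝ), (∀ i, 0 ≤ m i) ∧ x = ∑ i, m i • v i ∧
    (∀ i, l i = 0 → m i = 0) ∧ (univ.filter (fun i => m i ≠ 0)).card = k}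
  have hS : S.Nonempty := ⟨_, l, hl, hx, fun _ h => h, rfl⟩
  obtain ⟨m, hm0, hmx, hml, hmc⟩ := Nat.sInf_mem hS
  have hmin : ∀ m' : ι → ℝ, (∀ i, 0 ≤ m' i) → x = ∑ i, m' i • v i → (∀ i, l i = 0 → m' i = 0) →
      sInf S ≤ (univ.filter (fun i => m' i ≠ 0)).card := by
    intro m' h1 h2 h3
    exact Nat.sInf_le ⟨m', h1, h2, h3, rfl⟩
  refine ⟨univ.filter (fun i => m i ≠ 0), m, ?_, ?_, hmx, ?_, ?_⟩
  · intro i hi
    exact lt_of_le_of_ne (hm0 i) (Ne.symm (by simpa using hi))
  · intro i hi
    simpa using hi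
  · rw [linearIndepOn_finset_iff]
    by_contra hcon
    push Not at hcon
    obtain ⟨g, hg, i0, hi0, hgi0⟩ := hcon
    -- wlog g i0 > 0
    wlog hpos : 0 < g i0 generalizing g
    · apply this (fun i => - g i)
      · simp only [neg_smul, sum_neg_distrib, hg, neg_zero]
      · simpa using hgi0
      · have : g i0 < 0 := lt_of_le_of_ne (not_lt.mp hpos) hgi0
        simpa using this
    let T := (univ.filter (fun i => m i ≠ 0)).filter (fun i => 0 < g i)
    have hT : T.Nonempty := ⟨i0, Finset.mem_filter.mpr ⟨hi0, hpos⟩⟩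
    obtain ⟨j, hjT, hj⟩ := Finset.exists_min_image T (fun i => m i / g i) hT
    have hjT' : m j ≠ 0 ∧ 0 < g j := by simpa [T] using hjT
    let t := m j / g j
    have ht : 0 ≤ t := div_nonneg (hm0 j) hjT'.2.le
    let g' : ι → ℝ := fun i => if m i ≠ 0 then g i else 0
    let m' : ι → ℝ := fun i => m i - t * g' i
    have hm' : ∀ i, 0 ≤ m' i := by
      intro i
      simp only [m', g']
      split_ifs with h
      · by_cases hgi : 0 < g i
        · have hiT : i ∈ T := by simp only [T, mem_filter, mem_univ, true_and]; exact ⟨h, hgi⟩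
          have := hj i hiT
          have h3 : t ≤ m i / g i := this
          rw [le_div_iff₀ hgi] at h3
          linarith
        · have : t * g i ≤ 0 := mul_nonpos_of_nonneg_of_nonpos ht (not_lt.mp hgi)
          linarith [hm0 i]
      · simpa using hm0 i
    have hg' : ∑ i, g' i • v i = 0 := by
      rw [← hg, Finset.sum_filter]
      apply Finset.sum_congr rfl
      intro i _
      simp only [g']
      split_ifs with h
      · rfl
      · simp
    have hx' : x = ∑ i, m' i • v i := by
      simp only [m', sub_smul, sum_sub_distrib, mul_smul]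
      rw [← Finset.smul_sum, hg', smul_zero, sub_zero]
      exact hmx
    have hlt : (univ.filter (fun i => m' i ≠ 0)).card < (univ.filter (fun i => m i ≠ 0)).card := by
      apply Finset.card_lt_card
      rw [Finset.ssubset_iff_of_subset]
      · refine ⟨j, by simpa using hjT'.1, ?_⟩
        simp only [mem_filter, mem_univ, true_and, not_not, m', g']
        rw [if_pos hjT'.1]
        simp only [t]
        rw [div_mul_cancel₀ _ hjT'.2.ne', sub_self]
      · intro i hi
        simp only [mem_filter, mem_univ, true_and, m', g'] at hi ⊢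
        intro h
        apply hi
        rw [if_neg (by simpa using h)]
        simp [h]
    have hl' : ∀ i, l i = 0 → m' i = 0 := by
      intro i hi
      have h0 := hml i hi
      simp only [m', g']
      rw [if_neg (by simpa using h0), h0]
      simp
    have := hmin m' hm' hx' hl'
    rw [← hmc] at this
    omega
  · intro i hi h0
    have := hml i h0
    simp only [mem_filter, mem_univ, true_and] at hi
    exact hi this


/-- Gluing a positive circuit with a generating set of the quotient. -/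
theorem glue {E : Type*} [AddCommGroup E] [Module ℝ E] (v : ι → E) (i0 : ι) (C : Finset ι)
    (m : ι → ℝ) (hm : ∀ i ∈ C, 0 < m i) (hmC : ∀ i, i ∉ C → m i = 0)
    (hx : - v i0 = ∑ i, m i • v i) (W : Finset ι)
    (hW : ConeSpan (fun i => (Submodule.span ℝ (v '' (C : Set ι))).mkQ (v i)) W) :
    ConeSpan v (insert i0 (C ∪ W)) := by
  classical
  set L := Submodule.span ℝ (v '' (C : Set ι)) with hL
  intro x
  obtain ⟨l, hl0, hlW, hlx⟩ := hW (L.mkQ x)
  have h1 : x - ∑ i, l i • v i ∈ L := by
    rw [← Submodule.ker_mkQ L, LinearMap.mem_ker, map_sub, map_sum]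
    simp only [map_smul]
    rw [← hlx, sub_self]
  rw [hL, ← Finset.coe_image] at h1
  obtain ⟨μ, hμs, hμ⟩ : ∃ μ : ι → ℝ, (∀ i, i ∉ C → μ i = 0) ∧
      x - ∑ i, l i • v i = ∑ i, μ i • v i := by
    rw [Finset.coe_image, Submodule.mem_span_image_finset_iff_exists_fun] at h1
    obtain ⟨c, hc⟩ := h1
    refine ⟨fun i => if h : i ∈ C then c ⟨i, h⟩ else 0, ?_, ?_⟩
    · intro i hi
      simp [hi]
    · rw [← hc]
      rw [← Finset.sum_filter_add_sum_filter_not univ (fun i => i ∈ C)]
      rw [Finset.sum_eq_zero (s := univ.filter (fun i => ¬ i ∈ C)), add_zero]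
      · rw [Finset.filter_mem_eq_inter, Finset.univ_inter, ← Finset.sum_attach C]
        apply Finset.sum_congr rfl
        intro i hi
        simp
      · intro i hi
        simp only [mem_filter, mem_univ, true_and] at hi
        simp [hi]
  -- choose t large
  obtain ⟨t, ht0, ht⟩ : ∃ t : ℝ, 0 ≤ t ∧ ∀ i, 0 ≤ μ i + t * m i := by
    refine ⟨∑ i ∈ C, |μ i| / m i, ?_, ?_⟩
    · exact Finset.sum_nonneg (fun i hi => div_nonneg (abs_nonneg _) (hm i hi).le)
    · intro i
      by_cases hi : i ∈ C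
      · have h2 : |μ i| / m i ≤ ∑ i ∈ C, |μ i| / m i :=
          Finset.single_le_sum (f := fun i => |μ i| / m i)
            (fun j hj => div_nonneg (abs_nonneg _) (hm j hj).le) hi
        have h3 : |μ i| / m i * m i ≤ (∑ i ∈ C, |μ i| / m i) * m i :=
          mul_le_mul_of_nonneg_right h2 (hm i hi).le
        rw [div_mul_cancel₀ _ (hm i hi).ne'] at h3
        have := neg_abs_le (μ i)
        linarith
      · rw [hμs i hi, hmC i hi]; simp
  refine ⟨fun i => l i + (μ i + t * m i) + (if i = i0 then t else 0), ?_, ?_, ?_⟩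
  · intro i
    have h2 := ht i
    have h3 := hl0 i
    show 0 ≤ l i + (μ i + t * m i) + (if i = i0 then t else 0)
    split_ifs <;> linarith
  · intro i hi
    simp only [mem_insert, mem_union, not_or] at hi
    obtain ⟨h1, h2, h3⟩ := hi
    simp only
    rw [if_neg h1, hlW i h3, hμs i h2, hmC i h2]
    simp
  · simp only [add_smul, sum_add_distrib, mul_smul]
    rw [← Finset.smul_sum, ← hx, ← hμ]
    simp only [ite_smul, zero_smul, Finset.sum_ite_eq', mem_univ, if_true]
    rw [smul_neg]
    abel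

theorem steinitz_aux (n : ℕ) : ∀ {E : Type} [AddCommGroup E] [Module ℝ E]
    [FiniteDimensional ℝ E], Module.finrank ℝ E = n → ∀ v : ι → E,
    ConeSpan v univ → ∃ s : Finset ι, ConeSpan v s ∧ s.card ≤ 2 * n := by
  classical
  induction n using Nat.strong_induction_on with
  | _ n ih =>
    intro E _ _ _ hn v hv
    rcases Nat.eq_zero_or_pos n with h0 | hpos
    · subst h0
      refine ⟨∅, ?_, by simp⟩
      intro x
      have : Subsingleton E := Module.finrank_zero_iff.mp hn
      exact ⟨fun _ => 0, by simp, by simp, Subsingleton.elim _ _⟩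
    · -- find nonzero v i0
      have hex : ∃ i0, v i0 ≠ 0 := by
        by_contra hcon
        push Not at hcon
        have : Nontrivial E := Module.nontrivial_of_finrank_pos (R := ℝ) (by omega)
        obtain ⟨x, hx⟩ := exists_ne (0 : E)
        obtain ⟨l, _, _, hl⟩ := hv x
        apply hx
        rw [hl]
        simp [hcon]
      obtain ⟨i0, hi0⟩ := hex
      obtain ⟨l, hl0, _, hl⟩ := hv (- v i0)
      obtain ⟨C, m, hmC, hmC', hmx, hli, _⟩ := conic_caratheodory v (- v i0) l hl0 hl
      have hCne : C.Nonempty := by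
        rw [Finset.nonempty_iff_ne_empty]
        rintro rfl
        apply hi0
        rw [← neg_eq_zero, hmx]
        apply Finset.sum_eq_zero
        intro i _
        rw [hmC' i (by simp), zero_smul]
      have hcard : Module.finrank ℝ (Submodule.span ℝ (v '' (C : Set ι))) = C.card := by
        have h1 := finrank_span_eq_card hli
        rw [← Set.image_eq_range] at h1
        rw [h1]
        simp
      have hq : Module.finrank ℝ (E ⧸ Submodule.span ℝ (v '' (C : Set ι))) + C.card = n := by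
        rw [← hcard, Submodule.finrank_quotient_add_finrank, hn]
      have hCpos : 0 < C.card := hCne.card_pos
      obtain ⟨W, hW, hWc⟩ := ih (Module.finrank ℝ (E ⧸ Submodule.span ℝ (v '' (C : Set ι))))
        (by omega) (E := E ⧸ Submodule.span ℝ (v '' (C : Set ι))) rfl
        (fun i => (Submodule.span ℝ (v '' (C : Set ι))).mkQ (v i)) (by
          intro x
          obtain ⟨y, rfl⟩ := Submodule.mkQ_surjective _ x
          obtain ⟨l, h1, h2, h3⟩ := hv y
          refine ⟨l, h1, h2, ?_⟩
          conv_lhs => rw [h3]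
          rw [map_sum]
          simp only [map_smul])
      refine ⟨insert i0 (C ∪ W), glue v i0 C m hmC hmC' hmx W hW, ?_⟩
      have h1 := Finset.card_insert_le i0 (C ∪ W)
      have h2 := Finset.card_union_le C W
      omega


theorem steinitz {E : Type} [AddCommGroup E] [Module ℝ E]
    [FiniteDimensional ℝ E] (v : ι → E)
    (hv : ConeSpan v univ) : ∃ s : Finset ι, ConeSpan v s ∧ s.card ≤ 2 * Module.finrank ℝ E :=
  steinitz_aux _ rfl v hv

theorem circuit_card {E : Type} [AddCommGroup E] [Module ℝ E]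
    [FiniteDimensional ℝ E] (v : ι → E) (hv : ConeSpan v univ) (i0 : ι) (C : Finset ι)
    (m : ι → ℝ) (hm : ∀ i ∈ C, 0 < m i) (hmC : ∀ i, i ∉ C → m i = 0)
    (hx : - v i0 = ∑ i, m i • v i) (hli : LinearIndepOn ℝ v (C : Set ι)) :
    ∃ s : Finset ι, ConeSpan v s ∧ s.card + C.card ≤ 2 * Module.finrank ℝ E + 1 := by
  have hcard : Module.finrank ℝ (Submodule.span ℝ (v '' (C : Set ι))) = C.card := by
    have h1 := finrank_span_eq_card hli
    rw [← Set.image_eq_range] at h1
    rw [h1]
    simp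
  have hq : Module.finrank ℝ (E ⧸ Submodule.span ℝ (v '' (C : Set ι))) + C.card =
      Module.finrank ℝ E := by
    rw [← hcard, Submodule.finrank_quotient_add_finrank]
  obtain ⟨W, hW, hWc⟩ := steinitz (E := E ⧸ Submodule.span ℝ (v '' (C : Set ι)))
    (fun i => (Submodule.span ℝ (v '' (C : Set ι))).mkQ (v i)) (by
      intro x
      obtain ⟨y, rfl⟩ := Submodule.mkQ_surjective _ x
      obtain ⟨l, h1, h2, h3⟩ := hv y
      refine ⟨l, h1, h2, ?_⟩
      conv_lhs => rw [h3]
      rw [map_sum]
      simp only [map_smul])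
  refine ⟨insert i0 (C ∪ W), glue v i0 C m hm hmC hx W hW, ?_⟩
  have h1 := Finset.card_insert_le i0 (C ∪ W)
  have h2 := Finset.card_union_le C W
  omega

/-- the extremal case of Steinitz' theorem, first part -/
theorem opp_of_min {E : Type} [AddCommGroup E] [Module ℝ E]
    [FiniteDimensional ℝ E] (v : ι → E) (hv : ConeSpan v univ)
    (hmin : ∀ s, ConeSpan v s → 2 * Module.finrank ℝ E ≤ s.card) (i : ι) (hi : v i ≠ 0)
    (l : ι → ℝ) (hl : ∀ j, 0 ≤ l j) (hx : - v i = ∑ j, l j • v j) :
    ∃ j, l j ≠ 0 ∧ ∃ c : ℝ, 0 < c ∧ - v i = c • v j := by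
  obtain ⟨C, m, hmC, hmC', hmx, hli, hCl⟩ := conic_caratheodory v (- v i) l hl hx
  have hCne : C.Nonempty := by
    rw [Finset.nonempty_iff_ne_empty]
    rintro rfl
    apply hi
    rw [← neg_eq_zero, hmx]
    apply Finset.sum_eq_zero
    intro i _
    rw [hmC' i (by simp), zero_smul]
  obtain ⟨s, hs, hsc⟩ := circuit_card v hv i C m hmC hmC' hmx hli
  have := hmin s hs
  have hC1 : C.card = 1 := by
    have := hCne.card_pos
    omega
  obtain ⟨j, rfl⟩ := Finset.card_eq_one.mp hC1
  refine ⟨j, hCl j (by simp), m j, hmC j (by simp), ?_⟩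
  rw [hmx, Finset.sum_eq_single j]
  · intro b _ hb
    rw [hmC' b (by simpa using hb), zero_smul]
  · intro h; exact absurd (mem_univ _) h

/-- the extremal case of Steinitz' theorem: all vectors lie on the lines of a basis, and
every vector has an opposite -/
theorem steinitz_eq {E : Type} [AddCommGroup E] [Module ℝ E]
    [FiniteDimensional ℝ E] (v : ι → E) (hv : ConeSpan v univ)
    (hmin : ∀ s, ConeSpan v s → 2 * Module.finrank ℝ E ≤ s.card) (hne : ∀ i, v i ≠ 0) :
    (∀ i, ∃ j, ∃ c : ℝ, 0 < c ∧ - v i = c • v j) ∧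
    ∃ b : Finset ι, LinearIndepOn ℝ v (b : Set ι) ∧ Submodule.span ℝ (v '' (b : Set ι)) = ⊤ ∧
      ∀ i, ∃ j ∈ b, ∃ c : ℝ, v i = c • v j := by
  classical
  have hopp : ∀ i, ∃ j, ∃ c : ℝ, 0 < c ∧ - v i = c • v j := by
    intro i
    obtain ⟨l, hl0, _, hl⟩ := hv (- v i)
    obtain ⟨j, _, c, hc, h⟩ := opp_of_min v hv hmin i (hne i) l hl0 hl
    exact ⟨j, c, hc, h⟩
  refine ⟨hopp, ?_⟩
  choose op c hc hop using hopp
  -- choose a basis
  have hspan : Submodule.span ℝ (Set.range v) = ⊤ := by
    rw [eq_top_iff]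
    intro x _
    obtain ⟨l, _, _, hl⟩ := hv x
    rw [hl]
    exact Submodule.sum_mem _ (fun i _ => Submodule.smul_mem _ _ (Submodule.subset_span ⟨i, rfl⟩))
  obtain ⟨b, hb0, _, hb2, hb3⟩ :=
    exists_linearIndepOn_extension (linearIndepOn_empty ℝ v) (Set.empty_subset (Set.univ : Set ι))
  refine ⟨b.toFinset, by simpa using hb3, ?_, ?_⟩
  · rw [eq_top_iff, ← hspan, Submodule.span_le]
    rintro _ ⟨i, rfl⟩
    simpa using hb2 ⟨i, Set.mem_univ i, rfl⟩
  · intro i
    have hi : v i ∈ Submodule.span ℝ (v '' (b : Set ι)) := hb2 ⟨i, Set.mem_univ i, rfl⟩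
    obtain ⟨x, hx0, hx⟩ : ∃ x : ι → ℝ, (∀ j, j ∉ b → x j = 0) ∧ v i = ∑ j, x j • v j := by
      rw [← Set.coe_toFinset b, Submodule.mem_span_image_finset_iff_exists_fun] at hi
      obtain ⟨c, hc⟩ := hi
      refine ⟨fun i => if h : i ∈ b.toFinset then c ⟨i, h⟩ else 0, ?_, ?_⟩
      · intro i hi
        simp [hi]
      · rw [← hc]
        rw [← Finset.sum_filter_add_sum_filter_not univ (fun i => i ∈ b.toFinset)]
        rw [Finset.sum_eq_zero (s := univ.filter (fun i => ¬ i ∈ b.toFinset)), add_zero]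
        · rw [Finset.filter_mem_eq_inter, Finset.univ_inter, ← Finset.sum_attach b.toFinset]
          apply Finset.sum_congr rfl
          intro i hi
          simp
        · intro i hi
          simp only [mem_filter, mem_univ, true_and] at hi
          show (if h : i ∈ b.toFinset then c ⟨i, h⟩ else 0) • v i = 0
          rw [dif_neg hi, zero_smul]
    -- write - v i with nonnegative coefficients on b ∪ op b
    let l : ι → ℝ := fun k => ∑ j, ((if k = j then max (- x j) 0 else 0) +
      (if k = op j then max (x j) 0 * c j else 0))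
    have hl : ∀ k, 0 ≤ l k := by
      intro k
      apply Finset.sum_nonneg
      intro j _
      apply add_nonneg
      · split_ifs
        · exact le_max_right _ _
        · exact le_refl _
      · split_ifs
        · exact mul_nonneg (le_max_right _ _) (hc j).le
        · exact le_refl _
    have hlx : - v i = ∑ k, l k • v k := by
      simp only [l, Finset.sum_smul]
      rw [Finset.sum_comm, hx, ← Finset.sum_neg_distrib]
      apply Finset.sum_congr rfl
      intro j _
      simp only [add_smul, ite_smul, zero_smul, Finset.sum_add_distrib, Finset.sum_ite_eq',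
        mem_univ, if_true]
      have h1 : (max (x j) 0 * c j) • v (op j) = - (max (x j) 0 • v j) := by
        rw [mul_smul, ← hop j, smul_neg]
      rw [h1, ← sub_eq_add_neg, ← sub_smul, ← neg_smul]
      congr 1
      rcases le_total 0 (x j) with h | h
      · rw [max_eq_right (by linarith : - x j ≤ 0), max_eq_left h]; ring
      · rw [max_eq_left (by linarith : 0 ≤ - x j), max_eq_right h]; ring
    obtain ⟨k, hlk, t, ht, hk⟩ := opp_of_min v hv hmin i (hne i) l hl hlx
    obtain ⟨j, _, hj⟩ := Finset.exists_ne_zero_of_sum_ne_zero hlk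
    have hjb : j ∈ b := by
      by_contra hcon
      apply hj
      simp [hx0 j hcon]
    refine ⟨j, by simpa using hjb, ?_⟩
    by_cases hkj : k = j
    · refine ⟨-t, ?_⟩
      rw [← hkj, neg_smul, ← hk, neg_neg]
    · have hkop : k = op j := by
        by_contra hcon
        apply hj
        simp [hkj, hcon]
      refine ⟨t / c j, ?_⟩
      have h2 : v (op j) = (c j)⁻¹ • (- v j) := by
        rw [hop j, smul_smul, inv_mul_cancel₀ (hc j).ne', one_smul]
      rw [← neg_neg (v i), hk, hkop, h2, smul_smul, smul_neg, neg_neg]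
      congr 1

end Steinitz

section Toric

variable {n : ℕ}

/-- the pairing of a real character with a lattice vector -/
def pr (u : Fin n → ℝ) (v : Fin n → ℤ) : ℝ := ∑ i, u i * (v i : ℝ)

/-- the pairing of an integral character with a lattice vector -/
def pz (m v : Fin n → ℤ) : ℤ := ∑ i, m i * v i

/-- a lattice vector seen as a real vector -/
def toR (v : Fin n → ℤ) : Fin n → ℝ := fun i => (v i : ℝ)

/-- A Fano polytope: the convex hull of a finite set `rays` of primitive lattice vectors, all of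
which are vertices, containing the origin in its interior.  Its face fan is the fan of a toric
Fano variety, and every toric klt Fano variety arises in this way. -/
structure FanoPolytope (n : ℕ) where
  rays : Finset (Fin n → ℤ)
  primitive : ∀ v ∈ rays, ∀ (c : ℤ) (w : Fin n → ℤ), v = c • w → IsUnit c
  zero_mem : (0 : Fin n → ℝ) ∈ interior (convexHull ℝ (toR '' (rays : Set (Fin n → ℤ))))
  vertex : ∀ v ∈ rays, toR v ∉ convexHull ℝ (toR '' ((rays : Set (Fin n → ℤ)) \ {v}))

/-- `u` is the normalised inner normal of a facet of the polytope. The maximal cones of the fan are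
the cones over the sets of the rays `v` with `⟨u, v⟩ = -1`. -/
def FanoPolytope.IsFacet (P : FanoPolytope n) (u : Fin n → ℝ) : Prop :=
  (∀ v ∈ P.rays, -1 ≤ pr u v) ∧
    Submodule.span ℝ (toR '' {v | v ∈ P.rays ∧ pr u v = -1}) = ⊤

/-- The torus invariant divisor `∑ d v • D_v` is Cartier and nef: on every maximal cone its support
function is given by an integral character, which lies in the polytope of sections. -/
def FanoPolytope.IsNefCartier (P : FanoPolytope n) (d : (Fin n → ℤ) → ℤ) : Prop :=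
  ∀ u, P.IsFacet u → ∃ m : Fin n → ℤ,
    (∀ v ∈ P.rays, pr u v = -1 → pz m v = - d v) ∧ (∀ v ∈ P.rays, - d v ≤ pz m v)

/-- The divisor `∑ d v • D_v` with real coefficients is numerically trivial, i.e. the divisor of
a real character. -/
def FanoPolytope.NumTrivial (P : FanoPolytope n) (d : (Fin n → ℤ) → ℝ) : Prop :=
  ∃ m : Fin n → ℝ, ∀ v ∈ P.rays, d v = pr m v

/-- A nef decomposition of the anticanonical divisor `∑ D_v` (up to numerical equivalence) -/
structure FanoPolytope.IsNefDecomposition (P : FanoPolytope n) {k : ℕ} (a : Fin k → ℝ)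
    (d : Fin k → (Fin n → ℤ) → ℤ) : Prop where
  pos_k : 0 < k
  pos : ∀ i, 0 < a i
  nef : ∀ i, P.IsNefCartier (d i)
  nontriv : ∀ i, ¬ P.NumTrivial (fun v => (d i v : ℝ))
  numeq : P.NumTrivial (fun v => 1 - ∑ i, a i * (d i v : ℝ))

/-- The toric variety is `(ℙ¹)ⁿ`: up to a lattice automorphism the rays are `± e_i`. -/
def FanoPolytope.IsP1Power (P : FanoPolytope n) : Prop :=
  ∃ A : (Fin n → ℤ) ≃ₗ[ℤ] (Fin n → ℤ),
    ∀ w, w ∈ P.rays ↔ ∃ i, A w = Pi.single i 1 ∨ A w = - Pi.single i 1

theorem pr_add (u u' : Fin n → ℝ) (v : Fin n → ℤ) : pr (u + u') v = pr u v + pr u' v := by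
  simp [pr, add_mul, Finset.sum_add_distrib]

theorem pr_smul (t : ℝ) (u : Fin n → ℝ) (v : Fin n → ℤ) : pr (t • u) v = t * pr u v := by
  simp only [pr, Pi.smul_apply, smul_eq_mul, Finset.mul_sum, mul_assoc]

theorem pr_neg (u : Fin n → ℝ) (v : Fin n → ℤ) : pr (-u) v = - pr u v := by
  simp [pr]

theorem pr_zero (v : Fin n → ℤ) : pr (0 : Fin n → ℝ) v = 0 := by
  simp [pr]

theorem pr_sub (u u' : Fin n → ℝ) (v : Fin n → ℤ) : pr (u - u') v = pr u v - pr u' v := by
  rw [sub_eq_add_neg, pr_add, pr_neg, sub_eq_add_neg]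

theorem pr_toR (m v : Fin n → ℤ) : pr (toR m) v = (pz m v : ℝ) := by
  simp [pr, pz, toR]

theorem pr_sum {κ : Type*} (s : Finset κ) (f : κ → Fin n → ℝ) (v : Fin n → ℤ) :
    pr (∑ i ∈ s, f i) v = ∑ i ∈ s, pr (f i) v := by
  simp only [pr, Finset.sum_apply, Finset.sum_mul]
  rw [Finset.sum_comm]

/-- linear functional attached to a vector -/
def fn (u : Fin n → ℝ) : (Fin n → ℝ) →ₗ[ℝ] ℝ := ∑ i, u i • LinearMap.proj i

theorem fn_apply (u x : Fin n → ℝ) : fn u x = ∑ i, u i * x i := by
  simp [fn]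

theorem fn_toR (u : Fin n → ℝ) (v : Fin n → ℤ) : fn u (toR v) = pr u v := by
  simp [fn_apply, pr, toR]

theorem fn_ne_zero {u : Fin n → ℝ} (hu : u ≠ 0) : fn u ≠ 0 := by
  intro h
  apply hu
  funext i
  have := LinearMap.congr_fun h (Pi.single i 1)
  simpa [fn_apply, Pi.single_apply] using this

theorem eq_fn (f : (Fin n → ℝ) →ₗ[ℝ] ℝ) : f = fn (fun i => f (Pi.single i 1)) := by
  ext i
  simp [fn_apply, Pi.single_apply]

namespace FanoPolytope

variable (P : FanoPolytope n)

/-- the family of the rays -/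
def fam : {v // v ∈ P.rays} → (Fin n → ℝ) := fun v => toR v.1

theorem coneSpan_fam : ConeSpan P.fam univ := by
  classical
  intro x
  have h0 := P.zero_mem
  rw [mem_interior_iff_mem_nhds, Metric.mem_nhds_iff] at h0
  obtain ⟨ε, hε, hball⟩ := h0
  have hx : 0 < ‖x‖ + 1 := by positivity
  set t : ℝ := ε / (2 * (‖x‖ + 1)) with ht
  have htpos : 0 < t := by positivity
  have hmem : t • x ∈ Metric.ball (0 : Fin n → ℝ) ε := by
    rw [mem_ball_zero_iff, norm_smul, Real.norm_of_nonneg htpos.le, ht, div_mul_eq_mul_div,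
      div_lt_iff₀ (by positivity)]
    nlinarith [norm_nonneg x]
  have h1 := hball hmem
  rw [← Finset.coe_image, Finset.mem_convexHull'] at h1
  obtain ⟨w, hw0, _, hw⟩ := h1
  have hinj : Set.InjOn (toR (n := n)) (P.rays : Set (Fin n → ℤ)) := by
    intro a _ b _ hab
    funext i
    have := congrFun hab i
    simpa [toR] using this
  rw [Finset.sum_image (fun a ha b hb h => hinj ha hb h)] at hw
  refine ⟨fun i => t⁻¹ * w (toR i.1), ?_, ?_, ?_⟩
  · intro i
    exact mul_nonneg (inv_nonneg.mpr htpos.le) (hw0 _ (Finset.mem_image_of_mem _ i.2))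
  · intro i hi
    exact absurd (mem_univ i) hi
  · simp only [mul_smul, fam]
    rw [← Finset.smul_sum, Finset.univ_eq_attach,
      Finset.sum_attach P.rays (fun v => w (toR v) • toR v), hw, smul_smul,
      inv_mul_cancel₀ htpos.ne', one_smul]

theorem exists_neg {s : Finset {v // v ∈ P.rays}} (hs : ConeSpan P.fam s) {u : Fin n → ℝ}
    (hu : u ≠ 0) : ∃ v ∈ s, pr u v.1 < 0 := by
  obtain ⟨i, hi, h⟩ := hs.pos (fn (-u)) (fn_ne_zero (by simpa using hu))
  refine ⟨i, hi, ?_⟩
  rw [show P.fam i = toR i.1 from rfl, fn_toR, pr_neg] at h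
  linarith

/-- moving a point of the polar polytope to a vertex without increasing a linear function -/
theorem exists_facet (y : Fin n → ℝ) (k : ℕ) : ∀ u0 : Fin n → ℝ,
    (∀ v ∈ P.rays, -1 ≤ pr u0 v) → (P.rays.filter (fun v => pr u0 v ≠ -1)).card ≤ k →
    ∃ u, P.IsFacet u ∧ fn u y ≤ fn u0 y := by
  classical
  induction k with
  | zero =>
    intro u0 h0 hk
    by_cases hspan : Submodule.span ℝ (toR '' {v | v ∈ P.rays ∧ pr u0 v = -1}) = ⊤
    · exact ⟨u0, ⟨h0, hspan⟩, le_refl _⟩
    · exfalso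
      obtain ⟨f, hf, hle⟩ := Submodule.exists_le_ker_of_lt_top _ (lt_top_iff_ne_top.mpr hspan)
      rw [eq_fn f] at hf hle
      have hfne : (fun i => f (Pi.single i 1)) ≠ 0 := by
        intro h
        apply hf
        rw [h]
        ext i
        simp [fn_apply]
      obtain ⟨v, _, hv⟩ := P.exists_neg P.coneSpan_fam hfne
      have hact : pr u0 v.1 = -1 := by
        by_contra hcon
        have : v.1 ∈ P.rays.filter (fun v => pr u0 v ≠ -1) := by
          simp [v.2, hcon]
        have := Finset.card_pos.mpr ⟨_, this⟩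
        omega
      have hmem : toR v.1 ∈ Submodule.span ℝ (toR '' {v | v ∈ P.rays ∧ pr u0 v = -1}) :=
        Submodule.subset_span ⟨v.1, ⟨v.2, hact⟩, rfl⟩
      have := hle hmem
      rw [LinearMap.mem_ker, fn_toR] at this
      linarith
  | succ k ih =>
    intro u0 h0 hk
    by_cases hspan : Submodule.span ℝ (toR '' {v | v ∈ P.rays ∧ pr u0 v = -1}) = ⊤
    · exact ⟨u0, ⟨h0, hspan⟩, le_refl _⟩
    · obtain ⟨f, hf, hle⟩ := Submodule.exists_le_ker_of_lt_top _ (lt_top_iff_ne_top.mpr hspan)
      rw [eq_fn f] at hf hle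
      obtain ⟨g, hgne, hgact, hgy⟩ : ∃ g : Fin n → ℝ, g ≠ 0 ∧
          (∀ v ∈ P.rays, pr u0 v = -1 → pr g v = 0) ∧ fn g y ≤ 0 := by
        have hfne : (fun i => f (Pi.single i 1)) ≠ 0 := by
          intro h
          apply hf
          rw [h]
          ext i
          simp [fn_apply]
        have hact : ∀ v ∈ P.rays, pr u0 v = -1 → pr (fun i => f (Pi.single i 1)) v = 0 := by
          intro v hv hv1
          have hmem : toR v ∈ Submodule.span ℝ (toR '' {v | v ∈ P.rays ∧ pr u0 v = -1}) :=
            Submodule.subset_span ⟨v, ⟨hv, hv1⟩, rfl⟩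
          have := hle hmem
          rwa [LinearMap.mem_ker, fn_toR] at this
        rcases le_total (fn (fun i => f (Pi.single i 1)) y) 0 with h | h
        · exact ⟨_, hfne, hact, h⟩
        · refine ⟨- (fun i => f (Pi.single i 1)), by simpa using hfne, ?_, ?_⟩
          · intro v hv hv1
            rw [pr_neg, hact v hv hv1, neg_zero]
          · have : fn (-(fun i => f (Pi.single i 1))) y = - fn (fun i => f (Pi.single i 1)) y := by
              simp [fn_apply]
            rw [this]
            linarith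
      -- the first ray to become active
      let T := P.rays.filter (fun v => pr g v < 0)
      have hT : T.Nonempty := by
        obtain ⟨v, _, hv⟩ := P.exists_neg P.coneSpan_fam hgne
        exact ⟨v.1, by simp [T, v.2, hv]⟩
      obtain ⟨w, hwT, hw⟩ := Finset.exists_min_image T (fun v => (pr u0 v + 1) / (- pr g v)) hT
      have hwT' : w ∈ P.rays ∧ pr g w < 0 := by simpa [T] using hwT
      set t := (pr u0 w + 1) / (- pr g w) with htdef
      have ht0 : 0 ≤ t := div_nonneg (by linarith [h0 w hwT'.1]) (by linarith)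
      have hfeas : ∀ v ∈ P.rays, -1 ≤ pr (u0 + t • g) v := by
        intro v hv
        rw [pr_add, pr_smul]
        by_cases hgv : pr g v < 0
        · have h1 := hw v (by simp [T, hv, hgv])
          have h2 : t ≤ (pr u0 v + 1) / (- pr g v) := h1
          rw [le_div_iff₀ (by linarith)] at h2
          linarith
        · have : 0 ≤ t * pr g v := mul_nonneg ht0 (not_lt.mp hgv)
          linarith [h0 v hv]
      have hwact : pr (u0 + t • g) w = -1 := by
        have h1 : - pr g w ≠ 0 := by linarith [hwT'.2]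
        have h2 : t * (- pr g w) = pr u0 w + 1 := by rw [htdef, div_mul_cancel₀ _ h1]
        rw [pr_add, pr_smul]
        linarith
      have hwin : pr u0 w ≠ -1 := by
        intro h
        have := hgact w hwT'.1 h
        linarith [hwT'.2]
      have hcard : (P.rays.filter (fun v => pr (u0 + t • g) v ≠ -1)).card ≤ k := by
        have hss : P.rays.filter (fun v => pr (u0 + t • g) v ≠ -1) ⊂
            P.rays.filter (fun v => pr u0 v ≠ -1) := by
          rw [Finset.ssubset_iff_of_subset]
          · exact ⟨w, by simp [hwT'.1, hwin], by simp [hwact]⟩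
          · intro v hv
            simp only [mem_filter] at hv ⊢
            refine ⟨hv.1, fun h => hv.2 ?_⟩
            rw [pr_add, pr_smul, hgact v hv.1 h, h, mul_zero, add_zero]
        have := Finset.card_lt_card hss
        omega
      obtain ⟨u, hu, hy⟩ := ih (u0 + t • g) hfeas hcard
      refine ⟨u, hu, hy.trans ?_⟩
      have : fn (u0 + t • g) y = fn u0 y + t * fn g y := by
        simp only [fn_apply, Pi.add_apply, Pi.smul_apply, smul_eq_mul, add_mul,
          Finset.sum_add_distrib, Finset.mul_sum, mul_assoc]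
      rw [this]
      have := mul_nonpos_of_nonneg_of_nonpos ht0 hgy
      linarith


theorem exists_facet' (y u0 : Fin n → ℝ) (h0 : ∀ v ∈ P.rays, -1 ≤ pr u0 v) :
    ∃ u, P.IsFacet u ∧ fn u y ≤ fn u0 y := P.exists_facet y _ u0 h0 le_rfl

/-- every ray lies in a maximal cone -/
theorem exists_facet_through (v : Fin n → ℤ) (hv : v ∈ P.rays) :
    ∃ u, P.IsFacet u ∧ pr u v = -1 := by
  classical
  -- a strictly separating functional
  have hfin : ((P.rays : Set (Fin n → ℤ)) \ {v}).Finite := P.rays.finite_toSet.subset Set.sdiff_subset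
  have hcomp : IsCompact (convexHull ℝ (toR '' ((P.rays : Set (Fin n → ℤ)) \ {v}))) :=
    (hfin.image _).isCompact_convexHull (𝕜 := ℝ)
  obtain ⟨f, r, hf1, hf2⟩ := geometric_hahn_banach_point_closed
    (convex_convexHull ℝ (toR '' ((P.rays : Set (Fin n → ℤ)) \ {v}))) hcomp.isClosed
    (P.vertex v hv)
  set g : Fin n → ℝ := fun i => f (Pi.single i 1) with hg
  have hfg : ∀ w : Fin n → ℤ, f (toR w) = pr g w := by
    intro w
    have := LinearMap.congr_fun (eq_fn (f : (Fin n → ℝ) →ₗ[ℝ] ℝ)) (toR w)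
    rw [fn_toR] at this
    exact this
  have hlt : ∀ w ∈ P.rays, w ≠ v → pr g v < pr g w := by
    intro w hw hwv
    have h1 := hf2 (toR w) (subset_convexHull ℝ _ ⟨w, ⟨hw, by simpa using hwv⟩, rfl⟩)
    rw [hfg] at h1 hf1
    linarith
  -- `pr g v < 0`
  have hneg : pr g v < 0 := by
    by_contra hcon
    push Not at hcon
    have hge : ∀ w ∈ P.rays, 0 ≤ pr g w := by
      intro w hw
      by_cases hwv : w = v
      · rw [hwv]; exact hcon
      · linarith [hlt w hw hwv]
    by_cases hg0 : g = 0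
    · -- then v is the only ray
      have honly : ∀ w ∈ P.rays, w = v := by
        intro w hw
        by_contra hwv
        have := hlt w hw hwv
        rw [hg0, pr_zero, pr_zero] at this
        exact lt_irrefl _ this
      by_cases hn : n = 0
      · subst hn
        have h2 := P.primitive v hv 0 0 (Subsingleton.elim _ _)
        simp at h2
      · have : NeZero n := ⟨hn⟩
        have hvR : (fun i : Fin n => (v i : ℝ)) ≠ 0 := by
          intro h
          have hv0 : v = 0 := by
            funext i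
            have := congrFun h i
            simpa using this
          have h2 := P.primitive v hv 0 0 (by rw [hv0]; simp)
          simp at h2
        obtain ⟨w, _, hw⟩ := P.exists_neg P.coneSpan_fam hvR
        rw [honly w.1 w.2] at hw
        have : 0 ≤ pr (fun i : Fin n => (v i : ℝ)) v :=
          Finset.sum_nonneg (fun i _ => mul_self_nonneg _)
        linarith
    · obtain ⟨w, _, hw⟩ := P.exists_neg P.coneSpan_fam hg0
      linarith [hge w.1 w.2]
  obtain ⟨u, hu, huy⟩ := P.exists_facet' (toR v) ((- pr g v)⁻¹ • g) (by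
    intro w hw
    rw [pr_smul, ← div_eq_inv_mul, le_div_iff₀ (by linarith)]
    by_cases hwv : w = v
    · rw [hwv]; linarith
    · linarith [hlt w hw hwv])
  refine ⟨u, hu, le_antisymm ?_ (hu.1 v hv)⟩
  rw [fn_toR, fn_toR, pr_smul, ← div_eq_inv_mul, div_neg, div_self hneg.ne] at huy
  exact huy

/-- if a functional vanishes on all the rays (or is nonpositive on a generating set), it is zero -/
theorem eq_zero_of_nonpos {s : Finset {v // v ∈ P.rays}} (hs : ConeSpan P.fam s) {u : Fin n → ℝ}
    (hu : ∀ v ∈ s, 0 ≤ pr u v.1) : u = 0 := by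
  by_contra hcon
  obtain ⟨v, hv, h⟩ := P.exists_neg hs hcon
  linarith [hu v hv]

theorem facet_ext {u : Fin n → ℝ} (hu : P.IsFacet u) {u' : Fin n → ℝ}
    (h : ∀ v ∈ P.rays, pr u v = -1 → pr u' v = -1) : u' = u := by
  have h1 : fn (u' - u) = 0 := by
    have hle : Submodule.span ℝ (toR '' {v | v ∈ P.rays ∧ pr u v = -1}) ≤
        LinearMap.ker (fn (u' - u)) := by
      rw [Submodule.span_le]
      rintro _ ⟨v, ⟨hv, hv1⟩, rfl⟩
      simp only [SetLike.mem_coe, LinearMap.mem_ker]
      rw [fn_toR, pr_sub, h v hv hv1, hv1, sub_self]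
    rw [hu.2, top_le_iff, LinearMap.ker_eq_top] at hle
    exact hle
  by_contra hcon
  exact fn_ne_zero (sub_ne_zero.mpr hcon) h1

/-- the key inequality for one divisor -/
theorem one_le_sum {d : (Fin n → ℤ) → ℤ} (hd : P.IsNefCartier d)
    (hnt : ¬ P.NumTrivial (fun v => (d v : ℝ))) {s : Finset {v // v ∈ P.rays}}
    (hs : ConeSpan P.fam s) {m : Fin n → ℤ} (hm2 : ∀ v ∈ P.rays, - d v ≤ pz m v) :
    1 ≤ ∑ v ∈ s, (pz m v.1 + d v.1) := by
  by_contra hcon
  have hnn : ∀ v ∈ s, 0 ≤ pz m v.1 + d v.1 := fun v _ => by linarith [hm2 v.1 v.2]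
  have hzero : ∑ v ∈ s, (pz m v.1 + d v.1) = 0 :=
    le_antisymm (by omega) (Finset.sum_nonneg hnn)
  rw [Finset.sum_eq_zero_iff_of_nonneg hnn] at hzero
  apply hnt
  refine ⟨fun i => -(m i : ℝ), ?_⟩
  intro v hv
  obtain ⟨u', hu', huv⟩ := P.exists_facet_through v hv
  obtain ⟨m', hm1', hm2'⟩ := hd u' hu'
  have hmm : toR m' - toR m = 0 := by
    apply P.eq_zero_of_nonpos hs
    intro w hw
    rw [pr_sub, pr_toR, pr_toR]
    have h1 := hzero w hw
    have h2 := hm2' w.1 w.2
    have h3 : pz m w.1 ≤ pz m' w.1 := by linarith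
    have h4 : (pz m w.1 : ℝ) ≤ (pz m' w.1 : ℝ) := by exact_mod_cast h3
    linarith
  have hmm' : toR m' = toR m := sub_eq_zero.mp hmm
  have h5 := hm1' v hv huv
  have h6 : (pz m' v : ℝ) = (pz m v : ℝ) := by rw [← pr_toR, ← pr_toR, hmm']
  have h7 : pr (fun i => -(m i : ℝ)) v = - (pz m v : ℝ) := by
    rw [← pr_toR, ← pr_neg]; rfl
  rw [h7, ← h6, h5]
  push_cast
  ring

/-- the weighted sum of the key quantities over a set of rays -/
theorem sum_eq {k : ℕ} {a : Fin k → ℝ} {d : Fin k → (Fin n → ℤ) → ℤ}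
    (hD : P.IsNefDecomposition a d) (s : Finset {v // v ∈ P.rays}) {u : Fin n → ℝ}
    (hu : P.IsFacet u) (m : Fin k → Fin n → ℤ)
    (hm1 : ∀ i, ∀ v ∈ P.rays, pr u v = -1 → pz (m i) v = - d i v) :
    ∑ i, a i * ((∑ v ∈ s, (pz (m i) v.1 + d i v.1) : ℤ) : ℝ) =
      s.card + fn u (∑ v ∈ s, toR v.1) := by
  obtain ⟨q, hq'⟩ := hD.numeq
  have hq : ∀ v ∈ P.rays, 1 - ∑ i, a i * (d i v : ℝ) = pr q v := hq'
  have hu' : (∑ i, a i • toR (m i)) - q = u := by
    apply P.facet_ext hu
    intro v hv hv1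
    rw [pr_sub, pr_sum]
    simp only [pr_smul, pr_toR]
    rw [← hq v hv]
    have : ∑ i, a i * (pz (m i) v : ℝ) = - ∑ i, a i * (d i v : ℝ) := by
      rw [← Finset.sum_neg_distrib]
      apply Finset.sum_congr rfl
      intro i _
      rw [hm1 i v hv hv1]
      push_cast
      ring
    rw [this]
    ring
  have h1 : fn u (∑ v ∈ s, toR v.1) = ∑ v ∈ s, pr u v.1 := by
    rw [map_sum]
    apply Finset.sum_congr rfl
    intro v _
    rw [fn_toR]
  rw [h1]
  have h2 : ∀ v ∈ s, pr u v.1 = (∑ i, a i * (pz (m i) v.1 : ℝ)) -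
      (1 - ∑ i, a i * (d i v.1 : ℝ)) := by
    intro v _
    rw [← hu', pr_sub, pr_sum, ← hq v.1 v.2]
    simp only [pr_smul, pr_toR]
  rw [Finset.sum_congr rfl h2, Finset.sum_sub_distrib, Finset.sum_sub_distrib]
  push_cast
  simp only [Finset.mul_sum, mul_add, Finset.sum_add_distrib]
  rw [Finset.sum_comm (s := s), Finset.sum_comm (s := s)]
  simp
  ring

theorem weight_le {k : ℕ} {a : Fin k → ℝ} {d : Fin k → (Fin n → ℤ) → ℤ}
    (hD : P.IsNefDecomposition a d) {s : Finset {v // v ∈ P.rays}}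
    (hs : ConeSpan P.fam s) : ∑ i, a i ≤ s.card := by
  obtain ⟨u, hu, huy⟩ := P.exists_facet' (∑ v ∈ s, toR v.1) 0 (by
    intro v _
    rw [pr_zero]
    norm_num)
  have h0 : fn (0 : Fin n → ℝ) (∑ v ∈ s, toR v.1) = 0 := by simp [fn_apply]
  rw [h0] at huy
  choose m hm1 hm2 using fun i => hD.nef i u hu
  have h1 := P.sum_eq hD s hu m hm1
  have h2 : ∑ i, a i ≤ ∑ i, a i * ((∑ v ∈ s, (pz (m i) v.1 + d i v.1) : ℤ) : ℝ) := by
    apply Finset.sum_le_sum
    intro i _
    have h3 := P.one_le_sum (hD.nef i) (hD.nontriv i) hs (hm2 i)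
    have h4 : (1 : ℝ) ≤ ((∑ v ∈ s, (pz (m i) v.1 + d i v.1) : ℤ) : ℝ) := by exact_mod_cast h3
    nlinarith [hD.pos i]
  linarith

theorem weight_le_two_mul {k : ℕ} {a : Fin k → ℝ} {d : Fin k → (Fin n → ℤ) → ℤ}
    (hD : P.IsNefDecomposition a d) : ∑ i, a i ≤ 2 * n := by
  obtain ⟨s, hs, hc⟩ := steinitz P.fam P.coneSpan_fam
  rw [Module.finrank_fin_fun] at hc
  have h1 := P.weight_le hD hs
  have h2 : (s.card : ℝ) ≤ 2 * n := by exact_mod_cast hc
  linarith

theorem prim_prop {v w : Fin n → ℤ} (hv : ∀ (c : ℤ) (z : Fin n → ℤ), v = c • z → IsUnit c)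
    (hw : ∀ (c : ℤ) (z : Fin n → ℤ), w = c • z → IsUnit c) (c : ℝ)
    (h : toR v = c • toR w) : v = w ∨ v = - w := by
  have hw0 : w ≠ 0 := by
    intro h0
    have h2 := hw 0 0 (by rw [h0]; simp)
    simp at h2
  obtain ⟨i, hi⟩ : ∃ i, w i ≠ 0 := by
    by_contra hcon
    push Not at hcon
    exact hw0 (funext hcon)
  have hvw : ∀ j, (v j : ℝ) = c * (w j : ℝ) := fun j => congrFun h j
  have hcross : ∀ j, w i * v j = v i * w j := by
    intro j
    have : (w i : ℝ) * v j = v i * w j := by
      rw [hvw j, hvw i]; ring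
    exact_mod_cast this
  have hgpos : 0 < Int.gcd (v i) (w i) := Int.gcd_pos_of_ne_zero_right _ hi
  obtain ⟨p, q, hcop, hp, hq⟩ := Int.exists_gcd_one hgpos
  set g : ℤ := (Int.gcd (v i) (w i) : ℤ) with hg
  have hg0 : g ≠ 0 := by rw [hg]; exact_mod_cast hgpos.ne'
  have hpq : ∀ j, q * v j = p * w j := by
    intro j
    have h1 := hcross j
    rw [hp, hq] at h1
    have h2 : g * (q * v j) = g * (p * w j) := by linarith
    exact mul_left_cancel₀ hg0 h2
  have hcop' : IsCoprime p q := Int.isCoprime_iff_gcd_eq_one.mpr hcop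
  have hqw : ∀ j, q ∣ w j := fun j =>
    hcop'.symm.dvd_of_dvd_mul_left ⟨v j, (hpq j).symm⟩
  have hpv : ∀ j, p ∣ v j := fun j =>
    hcop'.dvd_of_dvd_mul_left ⟨w j, hpq j⟩
  choose w' hw' using hqw
  choose v' hv' using hpv
  have hqu : IsUnit q := hw q w' (funext hw')
  have hpu : IsUnit p := hv p v' (funext hv')
  rcases Int.isUnit_iff.mp hqu with h1 | h1 <;> rcases Int.isUnit_iff.mp hpu with h2 | h2
  · left; funext j; have := hpq j; rw [h1, h2] at this; linarith
  · right; funext j; have := hpq j; rw [h1, h2] at this; simp only [Pi.neg_apply]; linarith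
  · right; funext j; have := hpq j; rw [h1, h2] at this; simp only [Pi.neg_apply]; linarith
  · left; funext j; have := hpq j; rw [h1, h2] at this; linarith

theorem toR_neg (v : Fin n → ℤ) : toR (-v) = - toR v := by
  funext i; simp [toR]

theorem toR_inj {v w : Fin n → ℤ} (h : toR v = toR w) : v = w := by
  funext i
  have := congrFun h i
  simpa [toR] using this

theorem pz_add (m m' v : Fin n → ℤ) : pz (m + m') v = pz m v + pz m' v := by
  simp [pz, add_mul, Finset.sum_add_distrib]

theorem pz_neg (m v : Fin n → ℤ) : pz (-m) v = - pz m v := by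
  simp [pz]

theorem pz_sub (m m' v : Fin n → ℤ) : pz (m - m') v = pz m v - pz m' v := by
  rw [sub_eq_add_neg, pz_add, pz_neg, sub_eq_add_neg]

theorem pz_neg_right (m v : Fin n → ℤ) : pz m (-v) = - pz m v := by
  simp [pz]

theorem pr_neg_right (m : Fin n → ℝ) (v : Fin n → ℤ) : pr m (-v) = - pr m v := by
  simp [pr]

/-- the structure of the rays in the extremal case -/
theorem extremal_rays
    (hmin : ∀ s : Finset {v // v ∈ P.rays}, ConeSpan P.fam s → 2 * n ≤ s.card) :
    ∃ b : Finset {v // v ∈ P.rays}, LinearIndepOn ℝ P.fam (b : Set {v // v ∈ P.rays}) ∧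
      Submodule.span ℝ (P.fam '' (b : Set {v // v ∈ P.rays})) = ⊤ ∧
      (∀ v ∈ P.rays, - v ∈ P.rays) ∧ (∀ v ∈ P.rays, ∃ j ∈ b, v = j.1 ∨ v = - j.1) := by
  have hne : ∀ i : {v // v ∈ P.rays}, P.fam i ≠ 0 := by
    intro i h
    have hv0 : i.1 = 0 := by
      funext j
      have := congrFun h j
      simpa [fam, toR] using this
    have h2 := P.primitive i.1 i.2 0 0 (by rw [hv0]; simp)
    simp at h2
  obtain ⟨hopp, b, hb1, hb2, hb3⟩ := steinitz_eq P.fam P.coneSpan_fam (by
    intro s hs
    rw [Module.finrank_fin_fun]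
    exact hmin s hs) hne
  refine ⟨b, hb1, hb2, ?_, ?_⟩
  · intro v hv
    obtain ⟨k, c, hc, hk⟩ := hopp ⟨v, hv⟩
    have h1 : toR v = (-c) • toR k.1 := by
      rw [neg_smul]
      have : - toR v = c • toR k.1 := hk
      rw [← this, neg_neg]
    rcases prim_prop (P.primitive v hv) (P.primitive k.1 k.2) _ h1 with h | h
    · exfalso
      rw [h] at h1
      have h2 : (1 + c) • toR k.1 = 0 := by
        rw [add_smul, one_smul]
        nth_rewrite 1 [h1]
        rw [neg_smul, neg_add_cancel]
      rcases smul_eq_zero.mp h2 with h3 | h3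
      · linarith
      · exact hne k h3
    · rw [h, neg_neg]; exact k.2
  · intro v hv
    obtain ⟨j, hj, c, hc⟩ := hb3 ⟨v, hv⟩
    exact ⟨j, hj, prim_prop (P.primitive v hv) (P.primitive j.1 j.2) c hc⟩

theorem exists_sign_facet (b : Finset {v // v ∈ P.rays})
    (hb1 : LinearIndepOn ℝ P.fam (b : Set {v // v ∈ P.rays}))
    (hb2 : Submodule.span ℝ (P.fam '' (b : Set {v // v ∈ P.rays})) = ⊤)
    (hsym : ∀ v ∈ P.rays, - v ∈ P.rays) (hb3 : ∀ v ∈ P.rays, ∃ j ∈ b, v = j.1 ∨ v = - j.1)
    (ε : {v // v ∈ P.rays} → ℝ) (hε : ∀ j, ε j = 1 ∨ ε j = -1) :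
    ∃ u, P.IsFacet u ∧ ∀ j ∈ b, pr u j.1 = ε j := by
  let B : Module.Basis (b : Set {v // v ∈ P.rays}) ℝ (Fin n → ℝ) :=
    Module.Basis.mk (v := fun j : (b : Set {v // v ∈ P.rays}) => P.fam j.1) hb1 (by
      rw [← Set.image_eq_range] 
      exact hb2.ge)
  let f : (Fin n → ℝ) →ₗ[ℝ] ℝ := B.constr ℝ (fun j => ε j.1)
  have hf : ∀ j (hj : j ∈ b), f (toR j.1) = ε j := by
    intro j hj
    have h1 : B ⟨j, hj⟩ = toR j.1 := Module.Basis.mk_apply _ _ _
    rw [← h1]
    simp only [f, Module.Basis.constr_basis]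
  refine ⟨fun i => f (Pi.single i 1), ?_, ?_⟩
  · have hpr : ∀ v : Fin n → ℤ, pr (fun i => f (Pi.single i 1)) v = f (toR v) := by
      intro v
      rw [← fn_toR, ← eq_fn]
    constructor
    · intro v hv
      rw [hpr]
      obtain ⟨j, hj, h | h⟩ := hb3 v hv
      · rw [h, hf j hj]
        rcases hε j with h1 | h1 <;> rw [h1] <;> norm_num
      · rw [h, toR_neg, map_neg, hf j hj]
        rcases hε j with h1 | h1 <;> rw [h1] <;> norm_num
    · rw [eq_top_iff, ← hb2, Submodule.span_le]
      rintro _ ⟨j, hj, rfl⟩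
      rcases hε j with h1 | h1
      · have h2 : toR (- j.1) ∈ Submodule.span ℝ (toR '' {v | v ∈ P.rays ∧
            pr (fun i => f (Pi.single i 1)) v = -1}) :=
          Submodule.subset_span ⟨- j.1, ⟨hsym _ j.2, by
            rw [hpr, toR_neg, map_neg, hf j hj, h1]⟩, rfl⟩
        have h3 := Submodule.neg_mem _ h2
        rw [toR_neg, neg_neg] at h3
        exact h3
      · exact Submodule.subset_span ⟨j.1, ⟨j.2, by rw [hpr, hf j hj, h1]⟩, rfl⟩
  · intro j hj
    rw [← fn_toR, ← eq_fn, hf j hj]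

theorem sum_rays_eq_zero (hsym : ∀ v ∈ P.rays, - v ∈ P.rays) :
    ∑ v : {v // v ∈ P.rays}, toR v.1 = 0 := by
  have h1 : ∑ v : {v // v ∈ P.rays}, toR v.1 = ∑ v : {v // v ∈ P.rays}, toR (- v.1) := by
    refine Finset.sum_bij' (fun v _ => ⟨- v.1, hsym v.1 v.2⟩) (fun v _ => ⟨- v.1, hsym v.1 v.2⟩)
      ?_ ?_ ?_ ?_ ?_ <;> simp
  simp only [toR_neg, Finset.sum_neg_distrib] at h1
  have h2 : (2 : ℝ) • ∑ v : {v // v ∈ P.rays}, toR v.1 = 0 := by
    rw [two_smul]
    nth_rewrite 1 [h1]
    rw [neg_add_cancel]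
  exact (smul_eq_zero.mp h2).resolve_left two_ne_zero

theorem exists_dual {k : ℕ} {a : Fin k → ℝ} {d : Fin k → (Fin n → ℤ) → ℤ}
    (hD : P.IsNefDecomposition a d) (hsum : ∑ i, a i = 2 * n)
    (b : Finset {v // v ∈ P.rays})
    (hb1 : LinearIndepOn ℝ P.fam (b : Set {v // v ∈ P.rays}))
    (hb2 : Submodule.span ℝ (P.fam '' (b : Set {v // v ∈ P.rays})) = ⊤)
    (hsym : ∀ v ∈ P.rays, - v ∈ P.rays) (hb3 : ∀ v ∈ P.rays, ∃ j ∈ b, v = j.1 ∨ v = - j.1)
    (j0 : {v // v ∈ P.rays}) (hj0 : j0 ∈ b) :
    ∃ m : Fin n → ℤ, pz m j0.1 = 1 ∧ ∀ j ∈ b, j ≠ j0 → pz m j.1 = 0 := by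
  classical
  have hb_card : b.card = n := by
    have h1 := finrank_span_eq_card hb1
    rw [← Set.image_eq_range] at h1
    have h2 : Submodule.span ℝ ((fun x => P.fam x) '' (b : Set {v // v ∈ P.rays})) = ⊤ := hb2
    rw [h2, finrank_top, Module.finrank_fin_fun] at h1
    simpa using h1.symm
  have hcard : P.rays.card ≤ 2 * n := by
    have hsub : P.rays ⊆ b.image (fun j => j.1) ∪ b.image (fun j => - j.1) := by
      intro v hv
      obtain ⟨j, hj, h | h⟩ := hb3 v hv
      · exact Finset.mem_union_left _ (Finset.mem_image.mpr ⟨j, hj, h.symm⟩)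
      · exact Finset.mem_union_right _ (Finset.mem_image.mpr ⟨j, hj, h.symm⟩)
    have h1 := Finset.card_le_card hsub
    have h2 := Finset.card_union_le (b.image (fun j => j.1)) (b.image (fun j => - j.1))
    have h3 : (b.image (fun j => j.1)).card ≤ b.card := Finset.card_image_le
    have h4 : (b.image (fun j => - j.1)).card ≤ b.card := Finset.card_image_le
    omega
  -- the two facets
  obtain ⟨u, hu, hu1⟩ := P.exists_sign_facet b hb1 hb2 hsym hb3 (fun _ => -1) (fun _ => Or.inr rfl)
  obtain ⟨u', hu', hu1'⟩ := P.exists_sign_facet b hb1 hb2 hsym hb3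
    (fun j => if j = j0 then 1 else -1) (fun j => by by_cases h : j = j0 <;> simp [h])
  -- a divisor of positive width in direction j0
  obtain ⟨q, hq'⟩ := hD.numeq
  have hq : ∀ v ∈ P.rays, 1 - ∑ i, a i * (d i v : ℝ) = pr q v := hq'
  have hw : ∑ i, a i * ((d i j0.1 + d i (- j0.1) : ℤ) : ℝ) = 2 := by
    have h1 := hq j0.1 j0.2
    have h2 := hq (- j0.1) (hsym _ j0.2)
    rw [pr_neg_right] at h2
    push_cast
    simp only [mul_add, Finset.sum_add_distrib]
    linarith
  obtain ⟨i, _, hi⟩ : ∃ i ∈ Finset.univ, a i * ((d i j0.1 + d i (- j0.1) : ℤ) : ℝ) ≠ 0 := by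
    apply Finset.exists_ne_zero_of_sum_ne_zero
    rw [hw]; norm_num
  have hwi : d i j0.1 + d i (- j0.1) ≠ 0 := by
    intro h
    apply hi
    rw [h]; simp
  choose m hm1 hm2 using fun i => hD.nef i u hu
  obtain ⟨m', hm1', hm2'⟩ := hD.nef i u' hu'
  -- all the sums are equal to one
  have hone : ∑ v : {v // v ∈ P.rays}, (pz (m i) v.1 + d i v.1) = 1 := by
    have h1 := P.sum_eq hD Finset.univ hu m hm1
    rw [P.sum_rays_eq_zero hsym] at h1
    have h0 : fn u (0 : Fin n → ℝ) = 0 := map_zero _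
    rw [h0, add_zero] at h1
    have hge : ∀ i, (1 : ℝ) ≤ ((∑ v : {v // v ∈ P.rays}, (pz (m i) v.1 + d i v.1) : ℤ) : ℝ) := by
      intro i
      have h3 := P.one_le_sum (hD.nef i) (hD.nontriv i) P.coneSpan_fam (hm2 i)
      exact_mod_cast h3
    by_contra hcon
    have hgt : (1 : ℝ) < ((∑ v : {v // v ∈ P.rays}, (pz (m i) v.1 + d i v.1) : ℤ) : ℝ) := by
      refine lt_of_le_of_ne (hge i) ?_
      intro h
      apply hcon
      exact_mod_cast h.symm
    have hlt : ∑ i, a i * 1 <
        ∑ i, a i * ((∑ v : {v // v ∈ P.rays}, (pz (m i) v.1 + d i v.1) : ℤ) : ℝ) := by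
      apply Finset.sum_lt_sum
      · intro i' _
        exact mul_le_mul_of_nonneg_left (hge i') (hD.pos i').le
      · exact ⟨i, Finset.mem_univ _, mul_lt_mul_of_pos_left hgt (hD.pos i)⟩
    have hc : ((Finset.univ : Finset {v // v ∈ P.rays}).card : ℝ) ≤ 2 * n := by
      rw [Finset.card_univ, Fintype.card_coe]
      exact_mod_cast hcard
    simp only [mul_one] at hlt
    linarith
  -- the width is at most one
  have hjne : j0.1 ≠ - j0.1 := by
    intro h
    have h2 := P.primitive j0.1 j0.2 0 0 (by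
      funext t
      have := congrFun h t
      simp only [Pi.neg_apply] at this
      simp only [smul_zero, Pi.zero_apply]
      omega)
    simp at h2
  have hle : d i j0.1 + d i (- j0.1) ≤ 1 := by
    rw [← hone]
    have hnn : ∀ v : {v // v ∈ P.rays}, 0 ≤ pz (m i) v.1 + d i v.1 :=
      fun v => by linarith [hm2 i v.1 v.2]
    have hsub : ({j0, ⟨- j0.1, hsym _ j0.2⟩} : Finset {v // v ∈ P.rays}) ⊆ Finset.univ :=
      Finset.subset_univ _
    have h1 := Finset.sum_le_sum_of_subset_of_nonneg hsub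
      (f := fun v : {v // v ∈ P.rays} => pz (m i) v.1 + d i v.1) (fun v _ _ => hnn v)
    rw [Finset.sum_pair (by
      intro h
      apply hjne
      exact congrArg Subtype.val h)] at h1
    simp only [pz_neg_right] at h1
    linarith
  have hj0' : pz m' j0.1 = d i (- j0.1) := by
    have h1 : pr u' (- j0.1) = -1 := by
      rw [pr_neg_right, hu1' j0 hj0]; simp
    have h2 := hm1' (- j0.1) (hsym _ j0.2) h1
    rw [pz_neg_right] at h2
    linarith
  have hj0m : pz (m i) j0.1 = - d i j0.1 := hm1 i j0.1 j0.2 (hu1 j0 hj0)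
  have hnonneg : 0 ≤ d i j0.1 + d i (- j0.1) := by
    have h1 := hm2 i j0.1 j0.2
    have h2 := hm2 i (- j0.1) (hsym _ j0.2)
    rw [pz_neg_right] at h2
    linarith
  refine ⟨m' - m i, ?_, ?_⟩
  · rw [pz_sub, hj0', hj0m]
    omega
  · intro j hj hjj
    rw [pz_sub, hm1 i j.1 j.2 (hu1 j hj), hm1' j.1 j.2 (by rw [hu1' j hj]; simp [hjj])]
    ring

theorem pz_smul_right (m : Fin n → ℤ) (c : ℤ) (v : Fin n → ℤ) : pz m (c • v) = c * pz m v := by
  simp only [pz, Pi.smul_apply, smul_eq_mul, Finset.mul_sum]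
  apply Finset.sum_congr rfl
  intro i _
  ring

theorem pz_add_right (m v w : Fin n → ℤ) : pz m (v + w) = pz m v + pz m w := by
  simp [pz, mul_add, Finset.sum_add_distrib]

theorem pz_sum_right {κ : Type*} (s : Finset κ) (m : Fin n → ℤ) (f : κ → Fin n → ℤ) :
    pz m (∑ i ∈ s, f i) = ∑ i ∈ s, pz m (f i) := by
  simp only [pz, Finset.sum_apply, Finset.mul_sum]
  rw [Finset.sum_comm]

theorem isP1Power_of_eq {k : ℕ} {a : Fin k → ℝ} {d : Fin k → (Fin n → ℤ) → ℤ}
    (hD : P.IsNefDecomposition a d) (hsum : ∑ i, a i = 2 * n) : P.IsP1Power := by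
  classical
  obtain ⟨b, hb1, hb2, hsym, hb3⟩ := P.extremal_rays (by
    intro s hs
    have h1 := P.weight_le hD hs
    rw [hsum] at h1
    exact_mod_cast h1)
  have hb_card : b.card = n := by
    have h1 := finrank_span_eq_card hb1
    rw [← Set.image_eq_range] at h1
    have h2 : Submodule.span ℝ ((fun x => P.fam x) '' (b : Set {v // v ∈ P.rays})) = ⊤ := hb2
    rw [h2, finrank_top, Module.finrank_fin_fun] at h1
    simpa using h1.symm
  choose D hD1 hD2 using fun (j0 : {x // x ∈ b}) =>
    P.exists_dual hD hsum b hb1 hb2 hsym hb3 j0.1 j0.2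
  let e : {x // x ∈ b} ≃ Fin n := Finset.equivFinOfCardEq hb_card
  let A : (Fin n → ℤ) →ₗ[ℤ] (Fin n → ℤ) :=
    { toFun := fun x i => pz (D (e.symm i)) x
      map_add' := by
        intro x y
        funext i
        exact pz_add_right _ _ _
      map_smul' := by
        intro c x
        funext i
        exact pz_smul_right _ _ _ }
  have hA : ∀ i, A ((e.symm i).1.1) = Pi.single i 1 := by
    intro i
    funext l
    show pz (D (e.symm l)) ((e.symm i).1.1) = _
    by_cases hil : l = i
    · subst hil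
      rw [hD1, Pi.single_eq_same]
    · rw [hD2 (e.symm l) (e.symm i).1 (e.symm i).2 (by
        intro h
        apply hil
        have h' : e.symm i = e.symm l := Subtype.ext h
        exact (e.symm.injective h').symm), Pi.single_eq_of_ne hil]
  have hsurj : Function.Surjective A := by
    intro c
    refine ⟨∑ i, c i • (e.symm i).1.1, ?_⟩
    rw [map_sum]
    simp only [map_smul, hA]
    funext l
    simp [Finset.sum_apply, Pi.single_apply]
  have hinj : Function.Injective A := IsNoetherian.injective_of_surjective_endomorphism A hsurj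
  refine ⟨LinearEquiv.ofBijective A ⟨hinj, hsurj⟩, ?_⟩
  intro w
  show (w ∈ P.rays ↔ ∃ i, A w = Pi.single i 1 ∨ A w = - Pi.single i 1)
  constructor
  · intro hw
    obtain ⟨j, hj, h | h⟩ := hb3 w hw
    · refine ⟨e ⟨j, hj⟩, Or.inl ?_⟩
      rw [← hA, Equiv.symm_apply_apply, h]
    · refine ⟨e ⟨j, hj⟩, Or.inr ?_⟩
      rw [← hA, Equiv.symm_apply_apply, h, map_neg]
  · rintro ⟨i, h | h⟩
    · rw [← hA i] at h
      rw [hinj h]
      exact (e.symm i).1.2
    · rw [← hA i, ← map_neg] at h
      rw [hinj h]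
      exact hsym _ (e.symm i).1.2

theorem pos_dim (P : FanoPolytope n) : 0 < n := by
  rcases Nat.eq_zero_or_pos n with h | h
  · subst h
    exfalso
    have h0 := interior_subset P.zero_mem
    have hne : (toR '' (P.rays : Set (Fin 0 → ℤ))).Nonempty := by
      rw [← convexHull_nonempty_iff (𝕜 := ℝ)]
      exact ⟨_, h0⟩
    obtain ⟨_, v, hv, _⟩ := hne
    have h2 := P.primitive v hv 0 0 (Subsingleton.elim _ _)
    simp at h2
  · exact h

theorem exists_of_isP1Power (h : P.IsP1Power) :
    ∃ (k : ℕ) (a : Fin k → ℝ) (d : Fin k → (Fin n → ℤ) → ℤ),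
      P.IsNefDecomposition a d ∧ ∑ i, a i = 2 * n := by
  classical
  obtain ⟨A, hA⟩ := h
  let w : Fin n → (Fin n → ℤ) := fun j => A.symm (Pi.single j 1)
  have hAw : ∀ j, A (w j) = Pi.single j 1 := fun j => A.apply_symm_apply _
  have hw : ∀ j, w j ∈ P.rays := fun j => (hA _).mpr ⟨j, Or.inl (hAw j)⟩
  have hw' : ∀ j, - w j ∈ P.rays := fun j => (hA _).mpr ⟨j, Or.inr (by rw [map_neg, hAw])⟩
  let δ : Fin n → (Fin n → ℤ) := fun j i => A (Pi.single i 1) j
  have hδ : ∀ j x, pz (δ j) x = A x j := by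
    intro j x
    have hx : x = ∑ i, x i • (Pi.single i 1 : Fin n → ℤ) := by
      funext l
      simp [Finset.sum_apply, Pi.single_apply]
    conv_rhs => rw [hx, map_sum]
    simp only [map_smul, Finset.sum_apply, Pi.smul_apply, smul_eq_mul, pz, δ]
    apply Finset.sum_congr rfl
    intro i _
    ring
  let d : Fin n → (Fin n → ℤ) → ℤ := fun j v => if v = w j then 1 else 0
  have hne : ∀ j l, - w l ≠ w j := by
    intro j l h
    have h1 := congrArg A h
    rw [map_neg, hAw, hAw] at h1
    have h2 := congrFun h1 j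
    rw [Pi.single_eq_same, Pi.neg_apply] at h2
    by_cases hjl : j = l
    · rw [hjl, Pi.single_eq_same] at h2; omega
    · rw [Pi.single_eq_of_ne hjl] at h2; omega
  have hdiff : ∀ j l, j ≠ l → w l ≠ w j := by
    intro j l hjl h
    have h1 := congrArg A h
    rw [hAw, hAw] at h1
    have h2 := congrFun h1 j
    rw [Pi.single_eq_same, Pi.single_eq_of_ne hjl] at h2
    omega
  have hrays : ∀ v ∈ P.rays, ∃ l, v = w l ∨ v = - w l := by
    intro v hv
    obtain ⟨l, h | h⟩ := (hA v).mp hv
    · exact ⟨l, Or.inl (A.injective (by rw [h, hAw]))⟩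
    · exact ⟨l, Or.inr (A.injective (by rw [h, map_neg, hAw]))⟩
  refine ⟨n, fun _ => 2, d, ⟨P.pos_dim, fun _ => two_pos, ?_, ?_, ?_⟩, ?_⟩
  · -- nef Cartier
    intro j u hu
    by_cases hj : pr u (w j) = -1
    · refine ⟨- δ j, ?_, ?_⟩
      · intro v hv hv1
        rw [pz_neg, hδ]
        obtain ⟨l, h | h⟩ := hrays v hv
        · rw [h, hAw]
          by_cases hjl : j = l
          · simp [d, hjl]
          · simp [d, hdiff j l hjl, Pi.single_eq_of_ne hjl]
        · rw [h, map_neg, hAw]
          by_cases hjl : j = l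
          · exfalso
            rw [h, pr_neg_right, ← hjl, hj] at hv1
            norm_num at hv1
          · simp [d, hne j l, Pi.single_eq_of_ne hjl]
      · intro v hv
        rw [pz_neg, hδ]
        obtain ⟨l, h | h⟩ := hrays v hv
        · rw [h, hAw]
          by_cases hjl : j = l
          · simp [d, hjl]
          · simp [d, hdiff j l hjl, Pi.single_eq_of_ne hjl]
        · rw [h, map_neg, hAw]
          by_cases hjl : j = l
          · subst hjl
            simp [d, hne j j]
          · simp [d, hne j l, Pi.single_eq_of_ne hjl]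
    · refine ⟨0, ?_, ?_⟩
      · intro v hv hv1
        have hvj : v ≠ w j := by
          intro h
          rw [h] at hv1
          exact hj hv1
        simp [d, hvj, pz]
      · intro v hv
        have h0 : pz (0 : Fin n → ℤ) v = 0 := by simp [pz]
        rw [h0]
        simp only [d]
        split_ifs <;> norm_num
  · -- non trivial
    rintro j ⟨q, hq⟩
    have h1 := hq (w j) (hw j)
    have h2 := hq (- w j) (hw' j)
    rw [pr_neg_right, ← h1] at h2
    simp [d, hne j j] at h2
  · -- numerical equivalence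
    refine ⟨toR (- ∑ j, δ j), ?_⟩
    intro v hv
    rw [pr_toR, pz_neg]
    have h1 : pz (∑ j, δ j) v = ∑ j, A v j := by
      simp only [pz, Finset.sum_apply, Finset.sum_mul]
      rw [Finset.sum_comm]
      apply Finset.sum_congr rfl
      intro j _
      exact hδ j v
    rw [h1]
    obtain ⟨l, h | h⟩ := hrays v hv
    · have h2 : ∀ j, d j v = if j = l then 1 else 0 := by
        intro j
        by_cases hjl : j = l
        · simp [d, h, hjl]
        · simp [d, h, hjl, hdiff j l hjl]
      have h3 : ∀ j, A v j = if j = l then 1 else 0 := by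
        intro j
        rw [h, hAw, Pi.single_apply]
      simp only [h2, h3]
      push_cast
      simp
      norm_num
    · have h2 : ∀ j, d j v = 0 := by
        intro j
        simp [d, h, hne j l]
      have h3 : ∀ j, A v j = - if j = l then 1 else 0 := by
        intro j
        rw [h, map_neg, hAw, Pi.neg_apply, Pi.single_apply]
      simp only [h2, h3]
      push_cast
      simp
  · simp [mul_comm]

end FanoPolytope

end Toric

/-- The toric case of the problem: for the toric Fano variety of a Fano polytope of dimension `n`,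
every nef decomposition of the anticanonical divisor has total weight at most `2 n`, and the value
`2 n` is attained if and only if the variety is `(ℙ¹)ⁿ`. -/
theorem result (n : ℕ) (P : FanoPolytope n) :
    (∀ (k : ℕ) (a : Fin k → ℝ) (d : Fin k → (Fin n → ℤ) → ℤ),
      P.IsNefDecomposition a d → ∑ i, a i ≤ 2 * n) ∧
    ((∃ (k : ℕ) (a : Fin k → ℝ) (d : Fin k → (Fin n → ℤ) → ℤ),
      P.IsNefDecomposition a d ∧ ∑ i, a i = 2 * n) ↔ P.IsP1Power) :=
  ⟨fun _ _ _ hD => P.weight_le_two_mul hD,
    ⟨fun ⟨_, _, _, hD, hs⟩ => P.isP1Power_of_eq hD hs, fun h => P.exists_of_isP1Power h⟩⟩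

end Pool.Agent.Results.MP_732f67_ag.ToricNef
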